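import Mathlib
import Pool.Agent.W770.PC.Stms

/-!
PC-unit: polynomial chirps cut off to a rectangle in the square `[1/4, 3/4]²` (project PC,
helper770).
-/

set_option autoImplicit false

open MeasureTheory Set Filter Topology
open scoped ENNReal NNReal

namespace Pool.Agent.W736.PC.Unit

open Pool.Agent.W770.PC

/-- the cutoff in one variable -/
noncomputable def th (x : ℝ) : ℝ :=
  Real.smoothTransition (4 * x) * Real.smoothTransition (4 - 4 * x)

theorem th_smooth : ContDiff ℝ (⊤ : ℕ∞) th := by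
  unfold th
  have h1 : ContDiff ℝ (⊤ : ℕ∞) fun x : ℝ => Real.smoothTransition (4 * x) :=
    Real.smoothTransition.contDiff.comp (contDiff_const.mul contDiff_id)
  have h2 : ContDiff ℝ (⊤ : ℕ∞) fun x : ℝ => Real.smoothTransition (4 - 4 * x) :=
    Real.smoothTransition.contDiff.comp (contDiff_const.sub (contDiff_const.mul contDiff_id))
  exact h1.mul h2

theorem th_one {x : ℝ} (h1 : 1 / 4 ≤ x) (h2 : x ≤ 3 / 4) : th x = 1 := by
  unfold th
  rw [Real.smoothTransition.one_of_one_le (by linarith),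
    Real.smoothTransition.one_of_one_le (by linarith), one_mul]

theorem th_zero {x : ℝ} (h : x ∉ Icc (0 : ℝ) 1) : th x = 0 := by
  unfold th
  rw [mem_Icc, not_and_or, not_le, not_le] at h
  rcases h with h | h
  · rw [Real.smoothTransition.zero_of_nonpos (by linarith), zero_mul]
  · rw [Real.smoothTransition.zero_of_nonpos (x := 4 - 4 * x) (by linarith), mul_zero]

theorem th_abs (x : ℝ) : |th x| ≤ 1 := by
  unfold th
  rw [abs_mul, abs_of_nonneg (Real.smoothTransition.nonneg _),
    abs_of_nonneg (Real.smoothTransition.nonneg _)]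
  exact mul_le_one₀ (Real.smoothTransition.le_one _) (Real.smoothTransition.nonneg _)
    (Real.smoothTransition.le_one _)

/-- complex version of the cutoff -/
noncomputable def thc (x : ℝ) : ℂ := (th x : ℂ)

theorem thc_smooth : ContDiff ℝ (⊤ : ℕ∞) thc :=
  Complex.ofRealCLM.contDiff.comp th_smooth

theorem thc_supp : HasCompactSupport thc := by
  refine HasCompactSupport.of_support_subset_isCompact (isCompact_Icc (a := (0 : ℝ)) (b := 1)) ?_
  intro x hx
  by_contra h
  apply hx
  unfold thc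
  rw [th_zero h, Complex.ofReal_zero]

theorem iter_supp (j : ℕ) : HasCompactSupport (iteratedDeriv j thc) := by
  induction j with
  | zero => rw [iteratedDeriv_zero]; exact thc_supp
  | succ j ih => rw [iteratedDeriv_succ]; exact ih.deriv

theorem iter_bdd (j : ℕ) : ∃ B : ℝ, ∀ x, ‖iteratedDeriv j thc x‖ ≤ B :=
  (thc_smooth.continuous_iteratedDeriv j (by exact_mod_cast le_top)).bounded_above_of_compact_support
    (iter_supp j)

/-- the cutoff in the plane -/
noncomputable def psi (y : ℝ × ℝ) : ℂ := thc y.1 * thc y.2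

theorem psi_smooth : ContDiff ℝ (⊤ : ℕ∞) psi :=
  (thc_smooth.comp contDiff_fst).mul (thc_smooth.comp contDiff_snd)

theorem psi_zero {y : ℝ × ℝ} (h : y ∉ Sq) : psi y = 0 := by
  unfold psi thc
  unfold Sq at h
  rw [mem_prod, not_and_or] at h
  rcases h with h | h
  · rw [th_zero h, Complex.ofReal_zero, zero_mul]
  · rw [th_zero h, Complex.ofReal_zero, mul_zero]

theorem thc_norm (x : ℝ) : ‖thc x‖ ≤ 1 := by
  unfold thc
  rw [Complex.norm_real]
  exact th_abs x

theorem amp_psi : ∃ B : ℝ, Amp B psi := by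
  choose Bj hBj using iter_bdd
  have h0 : ∀ j, 0 ≤ Bj j := fun j => (norm_nonneg _).trans (hBj j 0)
  have hle : ∀ j ≤ 3, Bj j ≤ ∑ i ∈ Finset.range 4, Bj i := by
    intro j hj
    exact Finset.single_le_sum (f := Bj) (fun i _ => h0 i) (Finset.mem_range.2 (by omega))
  have hcd : ∀ j : ℕ, ContDiff ℝ j thc := fun j => thc_smooth.of_le (by exact_mod_cast le_top)
  refine ⟨∑ i ∈ Finset.range 4, Bj i, psi_smooth, fun y hy => psi_zero hy, ?_, ?_⟩
  · intro j hj y
    have h1 : (fun u => psi (u, y.2)) = fun u => thc y.2 * thc u := by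
      funext u
      unfold psi
      exact mul_comm _ _
    rw [h1, iteratedDeriv_const_mul _ ((hcd j).contDiffAt), norm_mul]
    calc ‖thc y.2‖ * ‖iteratedDeriv j thc y.1‖ ≤ 1 * Bj j :=
          mul_le_mul (thc_norm _) (hBj j _) (norm_nonneg _) zero_le_one
      _ ≤ _ := by rw [one_mul]; exact hle j hj
  · intro j hj y
    have h1 : (fun v => psi (y.1, v)) = fun v => thc y.1 * thc v := rfl
    rw [h1, iteratedDeriv_const_mul _ ((hcd j).contDiffAt), norm_mul]
    calc ‖thc y.1‖ * ‖iteratedDeriv j thc y.2‖ ≤ 1 * Bj j :=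
          mul_le_mul (thc_norm _) (hBj j _) (norm_nonneg _) zero_le_one
      _ ≤ _ := by rw [one_mul]; exact hle j hj

theorem ee_smooth : ContDiff ℝ (⊤ : ℕ∞) ee := by
  unfold ee
  have h1 : ContDiff ℝ (⊤ : ℕ∞) fun x : ℝ => (x : ℂ) * Complex.I :=
    Complex.ofRealCLM.contDiff.mul contDiff_const
  exact h1.cexp

theorem unit_thm (h1 : S_main) (h2 : S_tameP) (h3 : S_rect) (h4 : S_dpf) : S_unit := by
  intro p D hp
  obtain ⟨B, hB⟩ := amp_psi
  obtain ⟨C, hC⟩ := h2 D
  obtain ⟨K, hK⟩ := h1 p C B hp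
  obtain ⟨C', hC', hR⟩ := h3 p (by linarith)
  refine ⟨C' * max K 0, mul_nonneg hC' (le_max_right _ _), ?_⟩
  intro P hP a b c d ha hb hc hd
  have hf : (Icc a b ×ˢ Icc c d).indicator (fun y => ee (pf P y)) =
      (Icc a b ×ˢ Icc c d).indicator (fun y => psi y * ee (pf P y)) := by
    funext y
    by_cases hy : y ∈ Icc a b ×ˢ Icc c d
    · rw [indicator_of_mem hy, indicator_of_mem hy]
      have e1 : psi y = 1 := by
        unfold psi thc
        rw [mem_prod, mem_Icc, mem_Icc] at hy
        rw [th_one (ha.trans hy.1.1) (hy.1.2.trans hb), th_one (hc.trans hy.2.1) (hy.2.2.trans hd)]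
        simp
      rw [e1, one_mul]
    · rw [indicator_of_notMem hy, indicator_of_notMem hy]
  rw [hf]
  have hh : ContDiff ℝ (⊤ : ℕ∞) (fun y : ℝ × ℝ => y.1 ^ 2 + y.2 ^ 2) :=
    (contDiff_fst.pow 2).add (contDiff_snd.pow 2)
  have hsm : ContDiff ℝ (⊤ : ℕ∞) (fun y => psi y * ee (pf P y)) :=
    psi_smooth.mul (ee_smooth.comp (h4 P).1)
  have hcs : HasCompactSupport (fun y => psi y * ee (pf P y)) := by
    refine HasCompactSupport.of_support_subset_isCompact (K := Sq) ?_ ?_
    · exact isCompact_Icc.prod isCompact_Icc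
    · intro y hy
      by_contra h
      apply hy
      beta_reduce
      rw [psi_zero h, zero_mul]
  refine (hR (fun y => y.1 ^ 2 + y.2 ^ 2) _ hh hsm hcs a b c d).trans ?_
  rw [ENNReal.ofReal_mul hC']
  refine mul_le_mul_right ?_ _
  exact (hK psi (pf P) (fun y => y.1 ^ 2 + y.2 ^ 2) hB (hC P hP)).trans
    (ENNReal.ofReal_le_ofReal (le_max_left _ _))

end Pool.Agent.W736.PC.Unit
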